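import Pool.Agent.helper36.DetPos

/-!
The determinant inequality `det (A ^ 2 + |A * B| ^ p) ≥ det (A ^ 2 + A ^ p * B ^ p)` for all
positive semidefinite complex matrices `A`, `B` and all real `0 ≤ p ≤ 2`.
-/

namespace Pool.Agent.Results.MP_0f3ab5_an.DetInequality

open Matrix Filter Topology

section limit

open scoped MatrixOrder ComplexOrder Matrix.Norms.L2Operator NNReal

open Pool.Agent.helper36.DetIneq

variable {n : ℕ}

lemma continuousOn_rpow_nonneg (p : ℝ) (hp : 0 < p) :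
    ContinuousOn (fun X : Matrix (Fin n) (Fin n) ℂ => X ^ p) {X | 0 ≤ X} := by
  lift p to ℝ≥0 using hp.le
  have hp' : 0 < p := by exact_mod_cast hp
  have h := CFC.continuousOn_nnrpow (A := Matrix (Fin n) (Fin n) ℂ) p
  refine h.congr fun X _ => ?_
  exact (CFC.nnrpow_eq_rpow hp').symm

lemma continuous_abs : Continuous (fun X : Matrix (Fin n) (Fin n) ℂ => CFC.abs X) := by
  have h := CFC.continuousOn_sqrt (A := Matrix (Fin n) (Fin n) ℂ)
  have h2 : Continuous (fun X : Matrix (Fin n) (Fin n) ℂ => star X * X) := by fun_prop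
  exact h.comp_continuous h2 fun X => star_mul_self_nonneg X

/-- The perturbed matrix. -/
noncomputable def pert (A : Matrix (Fin n) (Fin n) ℂ) (ε : ℝ) : Matrix (Fin n) (Fin n) ℂ :=
  A + (ε : ℂ) • 1

lemma pert_tendsto (A : Matrix (Fin n) (Fin n) ℂ) :
    Tendsto (pert A) (𝓝[>] 0) (𝓝 A) := by
  have h : Continuous (pert A) := by unfold pert; fun_prop
  have h2 := h.tendsto 0
  have h3 : pert A 0 = A := by simp [pert]
  rw [h3] at h2
  exact h2.mono_left nhdsWithin_le_nhds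

lemma pert_pos (A : Matrix (Fin n) (Fin n) ℂ) (hA : A.PosSemidef) (ε : ℝ) (hε : 0 < ε) :
    IsStrictlyPositive (pert A ε) := by
  rw [isStrictlyPositive_iff_posDef, pert]
  refine PosDef.posSemidef_add hA ?_
  exact PosDef.one.smul (by exact_mod_cast hε)

lemma rpow_tendsto (A : Matrix (Fin n) (Fin n) ℂ) (hA : A.PosSemidef) (p : ℝ) (hp : 0 < p) :
    Tendsto (fun ε => (pert A ε) ^ p) (𝓝[>] 0) (𝓝 (A ^ p)) := by
  have h0 : A ∈ {X : Matrix (Fin n) (Fin n) ℂ | 0 ≤ X} := nonneg_iff_posSemidef.mpr hA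
  have h := (continuousOn_rpow_nonneg (n := n) p hp A h0).tendsto
  refine h.comp (tendsto_nhdsWithin_iff.mpr ⟨pert_tendsto A, ?_⟩)
  filter_upwards [self_mem_nhdsWithin] with ε hε
  exact (pert_pos A hA ε hε).nonneg

theorem det_ineq_posSemidef (A B : Matrix (Fin n) (Fin n) ℂ) (hA : A.PosSemidef)
    (hB : B.PosSemidef) (p : ℝ) (hp0 : 0 ≤ p) (hp2 : p ≤ 2) :
    0 ≤ (A ^ 2 + A ^ p * B ^ p).det ∧
      (A ^ 2 + A ^ p * B ^ p).det ≤ (A ^ 2 + (CFC.abs (A * B)) ^ p).det := by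
  have hA0 : 0 ≤ A := nonneg_iff_posSemidef.mpr hA
  have hB0 : 0 ≤ B := nonneg_iff_posSemidef.mpr hB
  rcases hp0.eq_or_lt with h | h
  · subst h
    rw [CFC.rpow_zero A hA0, CFC.rpow_zero B hB0, CFC.rpow_zero _ (CFC.abs_nonneg _), mul_one]
    refine ⟨?_, le_rfl⟩
    have h1 : (A ^ 2).PosSemidef := by
      have := posSemidef_conjTranspose_mul_self A
      rwa [hA.isHermitian.eq, ← sq] at this
    exact (h1.add PosSemidef.one).det_nonneg
  have hdet : Continuous (fun X : Matrix (Fin n) (Fin n) ℂ => X.det) :=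
    Continuous.matrix_det continuous_id
  have hmul : ∀ {f g : ℝ → Matrix (Fin n) (Fin n) ℂ} {F G : Matrix (Fin n) (Fin n) ℂ},
      Tendsto f (𝓝[>] 0) (𝓝 F) → Tendsto g (𝓝[>] 0) (𝓝 G) →
      Tendsto (fun ε => f ε * g ε) (𝓝[>] 0) (𝓝 (F * G)) := fun hf hg => hf.mul hg
  have hsq : Tendsto (fun ε => (pert A ε) ^ 2) (𝓝[>] 0) (𝓝 (A ^ 2)) := (pert_tendsto A).pow 2
  have hL : Tendsto (fun ε => ((pert A ε) ^ 2 + (pert A ε) ^ p * (pert B ε) ^ p).det) (𝓝[>] 0)
      (𝓝 (A ^ 2 + A ^ p * B ^ p).det) :=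
    (hdet.tendsto _).comp (hsq.add (hmul (rpow_tendsto A hA p h) (rpow_tendsto B hB p h)))
  have habs : Tendsto (fun ε => CFC.abs (pert A ε * pert B ε)) (𝓝[>] 0)
      (𝓝 (CFC.abs (A * B))) :=
    (continuous_abs.tendsto _).comp (hmul (pert_tendsto A) (pert_tendsto B))
  have habsp : Tendsto (fun ε => (CFC.abs (pert A ε * pert B ε)) ^ p) (𝓝[>] 0)
      (𝓝 ((CFC.abs (A * B)) ^ p)) := by
    have h00 : 0 ≤ CFC.abs (A * B) := CFC.abs_nonneg _
    have h0 : CFC.abs (A * B) ∈ {X : Matrix (Fin n) (Fin n) ℂ | 0 ≤ X} := h00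
    have h1 := (continuousOn_rpow_nonneg (n := n) p h _ h0).tendsto
    refine h1.comp (tendsto_nhdsWithin_iff.mpr ⟨habs, ?_⟩)
    filter_upwards with ε
    exact CFC.abs_nonneg _
  have hR : Tendsto (fun ε => ((pert A ε) ^ 2 + (CFC.abs (pert A ε * pert B ε)) ^ p).det)
      (𝓝[>] 0) (𝓝 (A ^ 2 + (CFC.abs (A * B)) ^ p).det) :=
    (hdet.tendsto _).comp (hsq.add habsp)
  have hev : ∀ᶠ ε : ℝ in 𝓝[>] 0,
      0 ≤ ((pert A ε) ^ 2 + (pert A ε) ^ p * (pert B ε) ^ p).det ∧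
      ((pert A ε) ^ 2 + (pert A ε) ^ p * (pert B ε) ^ p).det ≤
        ((pert A ε) ^ 2 + (CFC.abs (pert A ε * pert B ε)) ^ p).det := by
    filter_upwards [self_mem_nhdsWithin] with ε hε
    exact det_ineq_posDef _ _ (pert_pos A hA ε hε) (pert_pos B hB ε hε) p hp0 hp2
  exact ⟨ge_of_tendsto hL (hev.mono fun _ h => h.1),
    le_of_tendsto_of_tendsto hL hR (hev.mono fun _ h => h.2)⟩

end limit

open scoped MatrixOrder ComplexOrder in
/-- For all positive semidefinite complex `n × n` matrices `A`, `B` and all real `0 ≤ p ≤ 2`,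
`det (A ^ 2 + A ^ p * B ^ p)` is a nonnegative real number and is at most
`det (A ^ 2 + |A * B| ^ p)` (the order on `ℂ` is the usual one: `z ≤ w` iff `w - z` is a
nonnegative real number). -/
theorem result (n : ℕ) (A B : Matrix (Fin n) (Fin n) ℂ) (hA : A.PosSemidef) (hB : B.PosSemidef)
    (p : ℝ) (hp0 : 0 ≤ p) (hp2 : p ≤ 2) :
    0 ≤ (A ^ 2 + A ^ p * B ^ p).det ∧
      (A ^ 2 + A ^ p * B ^ p).det ≤ (A ^ 2 + (CFC.abs (A * B)) ^ p).det :=
  det_ineq_posSemidef A B hA hB p hp0 hp2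

end Pool.Agent.Results.MP_0f3ab5_an.DetInequality
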